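import Mathlib
import Pool.Agent.R243.FB.Defs
import Pool.Agent.R243.FB.Inst

set_option autoImplicit false

/-!
# A potential whose `L²` form-bound is smaller than its `L¹` spectral-radius limit

The semigroup is `U(t) = exp (t v (P - 2))`, where `P f(x) = (2/3) f(γ x) + (1/3) f(x/γ)` with
`γ^d = 2` (a symmetric Markov operator on `L^p(ℝ^d)` with `‖P‖_{L²} ≤ 2√2/3 < 1` although `P` is
conservative on `L¹`) and `v` is an unbounded integer-valued function with `v(γ x) = v(x)`. The
potential is `V = v`; then `δ = 1` and `β ≤ 1/(2 - 2√2/3)`.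
-/

namespace Pool.Agent.Results.MP_62a15f_an.StrictInequality

open Filter Topology MeasureTheory Set
open scoped ENNReal NNReal
open Pool.Agent.R243.FB

theorem result (d : ℕ) (hd : 1 ≤ d) : ∃ (S : SymSubMarkov d) (V : (Fin d → ℝ) → ℝ) (δ : ℝ≥0),
    Measurable V ∧ (∀ x, 0 ≤ V x) ∧ TBounded S V ∧ IsDelta S V δ ∧ formBound S V < δ := by
  have hd0 : d ≠ 0 := by omega
  refine ⟨Sg hd0, fun x => (rate x : ℝ), 1, rate_meas, fun x => Nat.cast_nonneg _,
    tbounded_S hd0, ⟨fun lam => Wf d lam, fun lam hl => isVRes_S hd0 hl, ?_⟩, ?_⟩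
  · exact tendsto_const_nhds.congr fun lam => (spec_Wf hd0 lam).symm
  · refine lt_of_le_of_lt (b := ENNReal.ofReal (1 / (2 - rho))) ?_ ?_
    · unfold formBound
      exact sInf_le ⟨ENNReal.ofReal_ne_top, 0, fun φ hφ _ => (form_S hd0 hφ).trans le_self_add⟩
    · have h1 := rho_lt_one
      rw [ENNReal.coe_one, ← ENNReal.ofReal_one, ENNReal.ofReal_lt_ofReal_iff one_pos,
        div_lt_one (by linarith)]
      linarith

end Pool.Agent.Results.MP_62a15f_an.StrictInequality
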